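import Pool.Agent.H987R2.Main
import Pool.Agent.Helper764.Cop_hc
import Pool.Agent.Helper764.Cop_fe
import Pool.Agent.Helper764.Cop_fnn
import Pool.Agent.Helper764.Cop_int
import Pool.Agent.Helper764.Cop_K

/-!
# The slope at the origin of the copolymer critical curve at `α = 1/2` is larger than `2/3`

There is `c > 2/3` such that for every renewal law with tail exponent `α = 1/2` and every charge law
(mean `0`, variance `1`, all exponential moments) the critical curve satisfies `h_c(λ) ≥ c λ` for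
all small `λ > 0`; hence `m_{1/2} > 2/3`.
-/

set_option autoImplicit false
open MeasureTheory ProbabilityTheory Filter Topology
open scoped ENNReal NNReal

namespace Pool.Agent.Results.MP_c26281_pr.HalfSlope

/-- law of one (gap, sign) pair: gap with law `κ`, sign uniform on `{false, true}`
(`true` means that the excursion lies below the interface, i.e. `ε = -1`) -/
noncomputable def stepLaw (κ : PMF ℕ) : Measure (ℕ × Bool) :=
  κ.toMeasure.prod (PMF.uniformOfFintype Bool).toMeasure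

instance instStepLaw (κ : PMF ℕ) : IsProbabilityMeasure (stepLaw κ) := by
  unfold stepLaw; infer_instance

/-- law of the i.i.d. sequence of (gap, sign) pairs -/
noncomputable def pathMeasure (κ : PMF ℕ) : Measure (ℕ → ℕ × Bool) :=
  Measure.infinitePi (fun _ : ℕ => stepLaw κ)

instance instPathMeasure (κ : PMF ℕ) : IsProbabilityMeasure (pathMeasure κ) := by
  unfold pathMeasure; infer_instance

/-- renewal points `τ_0 = 0`, `τ_j` = sum of the first `j` gaps -/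
def tau (x : ℕ → ℕ × Bool) (j : ℕ) : ℕ := ∑ i ∈ Finset.range j, (x i).1

/-- `Δ_n` = `1` if the excursion `(τ_j, τ_{j+1}]` containing `n` has sign `true`, else `0` -/
noncomputable def Delta (x : ℕ → ℕ × Bool) (n : ℕ) : ℝ :=
  ∑ j ∈ Finset.range n, if tau x j < n ∧ n ≤ tau x (j + 1) ∧ (x j).2 = true then 1 else 0

/-- the copolymer partition function `Z_{N,ω}` at `(λ,h)` -/
noncomputable def Z (κ : PMF ℕ) (lam h : ℝ) (N : ℕ) (ω : ℕ → ℝ) : ℝ :=
  ∫ x, Real.exp (-2 * lam * ∑ n ∈ Finset.Icc 1 N, Delta x n * (ω n + h)) ∂(pathMeasure κ)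

/-- i.i.d. charges with law `ν` (the coordinates `1, 2, ...` are used) -/
noncomputable def disorder (ν : Measure ℝ) [IsProbabilityMeasure ν] : Measure (ℕ → ℝ) :=
  Measure.infinitePi (fun _ : ℕ => ν)

instance instDisorder (ν : Measure ℝ) [IsProbabilityMeasure ν] :
    IsProbabilityMeasure (disorder ν) := by
  unfold disorder; infer_instance

/-- `N⁻¹ E log Z_N` -/
noncomputable def feN (κ : PMF ℕ) (ν : Measure ℝ) [IsProbabilityMeasure ν] (lam h : ℝ) (N : ℕ) : ℝ :=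
  (N : ℝ)⁻¹ * ∫ ω, Real.log (Z κ lam h N ω) ∂(disorder ν)

/-- the free energy `f(λ,h) = lim N⁻¹ E log Z_N` -/
noncomputable def freeEnergy (κ : PMF ℕ) (ν : Measure ℝ) [IsProbabilityMeasure ν] (lam h : ℝ) : ℝ :=
  limUnder atTop (feN κ ν lam h)

/-- the critical curve `h_c(λ) = sup {h ∈ ℝ : f(λ,h) > 0}` -/
noncomputable def hc (κ : PMF ℕ) (ν : Measure ℝ) [IsProbabilityMeasure ν] (lam : ℝ) : ℝ :=
  sSup {h : ℝ | 0 < freeEnergy κ ν lam h}

/-- **`m_{1/2} > 2/3`.**  There is `c > 2/3` such that for every gap law `κ` on the positive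
integers with `n^{1+1/2} κ(n) → cK > 0` and every charge law `ν` with mean `0`, variance `1` and all
exponential moments:

* for every `λ > 0`, `h ≥ 0`: `log Z_N` is integrable for large `N`, the limit defining `f(λ,h)`
  exists and is `≥ 0`;
* for every `λ > 0` the set defining `h_c(λ)` contains `0` and is bounded above, `h_c(λ) > 0`, and
  for `h ≥ 0`: `f(λ,h) > 0` iff `h < h_c(λ)`;
* `h_c(λ) ≥ c λ` for all sufficiently small `λ > 0`;
* every limit `m` of `h_c(λ)/λ` as `λ ↘ 0` satisfies `m ≥ c > 2/3`. -/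
theorem result : ∃ c : ℝ, 2 / 3 < c ∧
    ∀ (κ : PMF ℕ), κ 0 = 0 → ∀ cK : ℝ, 0 < cK →
      Tendsto (fun n : ℕ => (n : ℝ) ^ (1 + (1 / 2 : ℝ)) * (κ n).toReal) atTop (𝓝 cK) →
    ∀ (ν : Measure ℝ) [IsProbabilityMeasure ν], ∫ x, x ∂ν = 0 → ∫ x, x ^ 2 ∂ν = 1 →
      (∀ t : ℝ, Integrable (fun x => Real.exp (t * x)) ν) →
    (∀ lam h : ℝ, 0 < lam → 0 ≤ h →
      (∀ᶠ N in atTop, Integrable (fun ω => Real.log (Z κ lam h N ω)) (disorder ν)) ∧
      Tendsto (feN κ ν lam h) atTop (𝓝 (freeEnergy κ ν lam h)) ∧ 0 ≤ freeEnergy κ ν lam h) ∧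
    (∀ lam : ℝ, 0 < lam → 0 < freeEnergy κ ν lam 0 ∧
      BddAbove {h : ℝ | 0 < freeEnergy κ ν lam h} ∧ 0 < hc κ ν lam ∧
      ∀ h : ℝ, 0 ≤ h → (0 < freeEnergy κ ν lam h ↔ h < hc κ ν lam)) ∧
    (∀ᶠ lam in 𝓝[>] (0 : ℝ), c * lam ≤ hc κ ν lam) ∧
    ∀ m : ℝ, Tendsto (fun lam : ℝ => hc κ ν lam / lam) (𝓝[>] (0 : ℝ)) (𝓝 m) → c ≤ m ∧ 2 / 3 < m := by
  have hα : (0:ℝ) < 1 / 2 := by norm_num
  obtain ⟨η, hη, hmain⟩ := H987R2.main_data hα
  refine ⟨2 / 3 + η, by linarith, ?_⟩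
  intro κ hκ0 cK hcK htail ν hν hmean hvar hexp
  obtain ⟨l0, hl0, hpos⟩ := hmain κ hκ0 cK hcK htail ν hν hmean hvar hexp
  let D : ∀ lam : ℝ, 0 < lam → Cop764.Data := fun lam hlam =>
    ⟨κ, hκ0, 1 / 2, cK, hα, hcK, htail, ν, hν, hmean, hvar, hexp, lam, hlam⟩
  have hcrit : ∀ lam : ℝ, 0 < lam → 0 < freeEnergy κ ν lam 0 ∧
      BddAbove {h : ℝ | 0 < freeEnergy κ ν lam h} ∧ 0 < hc κ ν lam ∧
      ∀ h : ℝ, 0 ≤ h → (0 < freeEnergy κ ν lam h ↔ h < hc κ ν lam) := by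
    intro lam hlam
    obtain ⟨x, hx0, hx, _⟩ := Cop764.M_hc.J_hc (D lam hlam)
    have hx' : ∀ h : ℝ, 0 ≤ h → (0 < freeEnergy κ ν lam h ↔ h < x) := hx
    have hbd : ∀ h ∈ {h : ℝ | 0 < freeEnergy κ ν lam h}, h ≤ x := by
      intro h hh
      rcases le_or_gt 0 h with h1 | h1
      · exact ((hx' h h1).1 hh).le
      · linarith
    have h0mem : (0:ℝ) ∈ {h : ℝ | 0 < freeEnergy κ ν lam h} := (hx' 0 le_rfl).2 hx0
    have hcx : hc κ ν lam = x := by
      unfold hc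
      refine le_antisymm (csSup_le ⟨0, h0mem⟩ hbd) ?_
      refine le_of_forall_lt fun y hy => ?_
      obtain ⟨z, hz1, hz2⟩ := exists_between (max_lt hy hx0)
      refine lt_of_lt_of_le (lt_of_le_of_lt (le_max_left y 0) hz1) (le_csSup ⟨x, hbd⟩ ?_)
      exact (hx' z (le_of_lt (lt_of_le_of_lt (le_max_right y 0) hz1))).2 hz2
    rw [hcx]
    exact ⟨h0mem, ⟨x, hbd⟩, hx0, hx'⟩
  have hev : ∀ᶠ lam in 𝓝[>] (0 : ℝ), (2 / 3 + η) * lam ≤ hc κ ν lam := by
    filter_upwards [Ioo_mem_nhdsGT hl0] with lam hlam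
    have h1 := hpos (D lam hlam.1) rfl rfl rfl hlam.2
    have h2 : 0 < freeEnergy κ ν lam ((2 / 3 + η) * lam) := by
      have e : ((1 + (1 / 2 : ℝ))⁻¹ + η) * (D lam hlam.1).lam = (2 / 3 + η) * lam := by
        norm_num
        exact Or.inl rfl
      rw [← e]
      exact h1
    have h3 : 0 ≤ (2 / 3 + η) * lam := by
      have := hlam.1
      positivity
    exact (((hcrit lam hlam.1).2.2.2 _ h3).1 h2).le
  refine ⟨?_, hcrit, hev, ?_⟩
  · intro lam h hlam hh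
    obtain ⟨c0, n0, hK⟩ := Cop764.M_K.J_K (D lam hlam)
    have h1 := (Cop764.M_int.J_int (D lam hlam) c0 n0 hK h hh).2.2
    exact ⟨eventually_atTop.2 ⟨n0, fun N hN => h1 N hN⟩,
      (Cop764.M_fe.J_fe (D lam hlam) h hh).1, Cop764.M_fnn.J_fnn (D lam hlam) h hh⟩
  · intro m hT
    have h1 : 2 / 3 + η ≤ m := by
      refine ge_of_tendsto hT ?_
      filter_upwards [hev, self_mem_nhdsWithin] with lam h2 h3
      rw [le_div_iff₀ h3]
      exact h2
    exact ⟨h1, by linarith⟩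

end Pool.Agent.Results.MP_c26281_pr.HalfSlope
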